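import Pool.Agent.H1.RammB

open Pool.Agent.H1.Ramm Metric

theorem Pool.Agent.Results.MP_f60174_an.Disproof.result :
    ∃ (A B : Fin 2 → Fin 2 → E → ℝ) (c d a b u v : E → ℝ),
      Admissible A c ∧ Admissible B d ∧
      ContDiffOn ℝ (⊤ : ℕ∞) a (closedBall 0 1) ∧ ContDiffOn ℝ (⊤ : ℕ∞) b (closedBall 0 1) ∧
      (∀ p ∈ closedBall (0 : E) 1, 0 < a p ∧ 0 < b p) ∧
      ContDiff ℝ (⊤ : ℕ∞) u ∧ ContDiff ℝ (⊤ : ℕ∞) v ∧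
      (∀ p ∈ ball (0 : E) 1, op A c u p + a p * v p = 0 ∧ -(b p * u p) + op B d v p = 0) ∧
      (∀ p ∈ sphere (0 : E) 1, u p = 0 ∧ v p = 0) ∧
      (∃ p ∈ ball (0 : E) 1, u p ≠ 0) ∧ (∃ p ∈ ball (0 : E) 1, v p ≠ 0) :=
  main
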